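import Pool.Agent.V11277.Net
import Pool.Agent.TH650.GB.CB

/-!
# Pseudoinverse solutions of systems of equations `x_i = 1`, `x_i + x_j = x_k` are small

Let `x_ε` be the solution of `(Aᵀ A + ε) x = Aᵀ b`. It is the least squares solution of the system
given by the equations of `S` and the equations `√ε x_i = 0`, so by the Cauchy-Binet formula it is a
weighted mean of the solutions of the uniquely solvable subsystems with `n` equations, with the
squares of the determinants as weights. Since `x_i = 0` is equivalent to `x_i + x_i = x_i`, these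
solutions are bounded by `2 ^ (n - 1)` (`Pool.Agent.V11277.Net.unique_solution`). The pseudoinverse
solution is the limit of `x_ε` as `ε` tends to zero.
-/

set_option autoImplicit false

namespace Pool.Agent.Results.MP_b60f31_al.PseudoinverseSmall

open Pool.Agent.V11277.Net Matrix

variable {n : ℕ}

/-- The matrix of the system: a row `e_i` for every equation `x_i = 1`, `i ∈ S₁`, and a row
`e_i + e_j - e_k` for every equation `x_i + x_j = x_k`, `(i, j, k) ∈ S₂`. -/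
def sysMatrix (S₁ : Finset (Fin n)) (S₂ : Finset (Fin n × Fin n × Fin n)) :
    Matrix (S₁ ⊕ S₂) (Fin n) ℝ :=
  Matrix.of (Sum.elim (fun i => Pi.single i.1 1)
    (fun t => Pi.single t.1.1 1 + Pi.single t.1.2.1 1 - Pi.single t.1.2.2 1))

/-- The right-hand side of the system: `1` for the equations `x_i = 1`, and `0` for the equations
`x_i + x_j = x_k`. -/
def sysRhs (S₁ : Finset (Fin n)) (S₂ : Finset (Fin n × Fin n × Fin n)) : S₁ ⊕ S₂ → ℝ :=
  Sum.elim (fun _ => 1) (fun _ => 0)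

/-- `G` is the Moore-Penrose pseudoinverse of the real matrix `A` (the four Penrose equations). -/
def IsPseudoinverse {m n : Type*} [Fintype m] [Fintype n] (A : Matrix m n ℝ) (G : Matrix n m ℝ) :
    Prop :=
  A * G * A = A ∧ G * A * G = G ∧ (A * G)ᵀ = A * G ∧ (G * A)ᵀ = G * A

/-- The coefficients of an equation. -/
def cf : Eqn n → (Fin n → ℝ)
  | .one i => Pi.single i 1
  | .add i j k => Pi.single i 1 + Pi.single j 1 - Pi.single k 1

/-- The right-hand side of an equation. -/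
def rh : Eqn n → ℝ
  | .one _ => 1
  | .add _ _ _ => 0

theorem holds_iff (e : Eqn n) (x : Fin n → ℝ) : e.Holds x ↔ ∑ k, cf e k * x k = rh e := by
  have h : ∀ l : Fin n, ∑ k, (Pi.single l 1 : Fin n → ℝ) k * x k = x l := by
    intro l
    rw [Finset.sum_eq_single l]
    · simp
    · intro k _ hk
      rw [Pi.single_eq_of_ne hk, zero_mul]
    · intro h
      exact absurd (Finset.mem_univ l) h
  rcases e with i | ⟨i, j, k⟩
  · simp only [Eqn.Holds, cf, rh, h]
  · simp only [Eqn.Holds, cf, rh, Pi.add_apply, Pi.sub_apply, add_mul, sub_mul,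
      Finset.sum_add_distrib, Finset.sum_sub_distrib, h, sub_eq_zero]

theorem abs_le_of_unique (S : Set (Eqn n)) (x : Fin n → ℝ) (hx : ∀ e ∈ S, e.Holds x)
    (huniq : ∀ y : Fin n → ℝ, (∀ e ∈ S, e.Holds y) → y = x) (j : Fin n) :
    |x j| ≤ 2 ^ (n - 1) := by
  obtain ⟨r, hr, hnum, _⟩ := unique_solution S x hx huniq j
  have h1 : |r| ≤ |(r.num : ℚ)| := by
    conv_lhs => rw [← Rat.num_div_den r]
    rw [abs_div]
    refine div_le_self (abs_nonneg _) ?_
    rw [Nat.abs_cast]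
    exact_mod_cast r.pos
  have h2 : |r| ≤ 2 ^ (n - 1) := by
    refine h1.trans ?_
    have h2 : ((|r.num| : ℤ) : ℚ) ≤ ((2 ^ (n - 1) : ℤ) : ℚ) := by exact_mod_cast hnum
    push_cast at h2
    exact h2
  rw [← hr]
  exact_mod_cast h2

theorem cramer_self {ι : Type*} [Fintype ι] [DecidableEq ι] (M : Matrix ι ι ℝ) (x : ι → ℝ) (j : ι) :
    M.det * x j = (M.updateCol j (M *ᵥ x)).det := by
  rw [← Matrix.cramer_apply, Matrix.cramer_eq_adjugate_mulVec, Matrix.mulVec_mulVec,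
    Matrix.adjugate_mul, Matrix.smul_mulVec, Matrix.one_mulVec]
  rfl

section reg

variable {E : Type*} [Fintype E] (eq : E → Eqn n) (s : ℝ)

/-- The matrix of the system with the additional rows `s e_i`. -/
def At : Matrix (E ⊕ Fin n) (Fin n) ℝ :=
  Matrix.of (Sum.elim (fun e => cf (eq e)) (fun i => s • (Pi.single i 1 : Fin n → ℝ)))

/-- The right-hand side. -/
def bt : E ⊕ Fin n → ℝ := Sum.elim (fun e => rh (eq e)) (fun _ => 0)

/-- The equations. -/
def eqt : E ⊕ Fin n → Eqn n := Sum.elim eq (fun i => Eqn.add i i i)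

omit [Fintype E] in
theorem holds_eqt (hs : s ≠ 0) (r : E ⊕ Fin n) (x : Fin n → ℝ) :
    (eqt eq r).Holds x ↔ ∑ k, At eq s r k * x k = bt eq r := by
  rcases r with e | i
  · exact holds_iff (eq e) x
  · show x i + x i = x i ↔ ∑ k, (s • (Pi.single i 1 : Fin n → ℝ)) k * x k = 0
    rw [Finset.sum_eq_single i]
    · rw [Pi.smul_apply, Pi.single_eq_same, smul_eq_mul, mul_one]
      constructor
      · intro h
        have : x i = 0 := by linarith
        rw [this, mul_zero]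
      · intro h
        rcases mul_eq_zero.1 h with h | h
        · exact absurd h hs
        · rw [h, add_zero]
    · intro k _ hk
      rw [Pi.smul_apply, Pi.single_eq_of_ne hk, smul_zero, zero_mul]
    · intro h
      exact absurd (Finset.mem_univ i) h

omit [Fintype E] in
theorem minor_bound (hs : s ≠ 0) (I : Fin n → E ⊕ Fin n) (j : Fin n) :
    |((At eq s).submatrix I id).det * (((At eq s).updateCol j (bt eq)).submatrix I id).det| ≤
      2 ^ (n - 1) * ((At eq s).submatrix I id).det ^ 2 := by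
  set M := (At eq s).submatrix I id with hM
  by_cases hd : M.det = 0
  · rw [hd]
    simp
  have hu : IsUnit M.det := isUnit_iff_ne_zero.2 hd
  set y : Fin n → ℝ := M⁻¹ *ᵥ (fun a => bt eq (I a)) with hy
  have hMy : M *ᵥ y = fun a => bt eq (I a) := by
    rw [hy, Matrix.mulVec_mulVec, Matrix.mul_nonsing_inv _ hu, Matrix.one_mulVec]
  have hholds : ∀ z : Fin n → ℝ, (∀ e ∈ Set.range (fun a => eqt eq (I a)), e.Holds z) ↔
      M *ᵥ z = fun a => bt eq (I a) := by
    intro z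
    constructor
    · intro h
      funext a
      exact (holds_eqt eq s hs (I a) z).1 (h _ ⟨a, rfl⟩)
    · rintro h _ ⟨a, rfl⟩
      exact (holds_eqt eq s hs (I a) z).2 (congrFun h a)
  have hyj : |y j| ≤ 2 ^ (n - 1) := by
    refine abs_le_of_unique _ y ((hholds y).2 hMy) (fun z hz => ?_) j
    have h1 := (hholds z).1 hz
    have h3 : M⁻¹ *ᵥ (M *ᵥ z) = z := by
      rw [Matrix.mulVec_mulVec, Matrix.nonsing_inv_mul _ hu, Matrix.one_mulVec]
    rw [← h3, h1]
  have hc : (((At eq s).updateCol j (bt eq)).submatrix I id).det = M.det * y j := by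
    rw [cramer_self M y j, hMy]
    congr 1
  rw [hc]
  have h1 : M.det * (M.det * y j) = y j * M.det ^ 2 := by ring
  rw [h1, abs_mul, abs_of_nonneg (sq_nonneg M.det)]
  exact mul_le_mul_of_nonneg_right hyj (sq_nonneg _)

theorem det_pos (hs : s ≠ 0) : 0 < ((At eq s)ᵀ * At eq s).det := by
  set A := At eq s with hA
  have hcard : (0 : ℝ) < ((Fintype.card (Fin n)).factorial : ℝ) := by
    exact_mod_cast Nat.factorial_pos _
  have h1 := Pool.Agent.TH650.GB.cb Aᵀ A
  have h4 : ((Fintype.card (Fin n)).factorial : ℝ) * (Aᵀ * A).det =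
      ∑ I : Fin n → E ⊕ Fin n, (A.submatrix I id).det ^ 2 := by
    rw [h1]
    refine Finset.sum_congr rfl fun I _ => ?_
    have : (Aᵀ.submatrix id I).det = (A.submatrix I id).det := by
      rw [← Matrix.det_transpose]
      rfl
    rw [this, sq]
  have hpos : 0 < ((Fintype.card (Fin n)).factorial : ℝ) * (Aᵀ * A).det := by
    rw [h4]
    refine Finset.sum_pos' (fun I _ => sq_nonneg _) ⟨Sum.inr, Finset.mem_univ _, ?_⟩
    have h5 : A.submatrix Sum.inr id = s • (1 : Matrix (Fin n) (Fin n) ℝ) := by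
      ext i k
      rw [Matrix.submatrix_apply, id, Matrix.smul_apply, Matrix.one_apply, smul_eq_mul]
      show s • (Pi.single i 1 : Fin n → ℝ) k = _
      rw [smul_eq_mul, Pi.single_apply]
      by_cases h : i = k
      · rw [if_pos h, if_pos h.symm]
      · rw [if_neg h, if_neg fun h2 => h h2.symm]
    rw [h5, Matrix.det_smul, Matrix.det_one, mul_one]
    positivity
  exact pos_of_mul_pos_right hpos hcard.le

theorem reg_bound (hs : s ≠ 0) (x : Fin n → ℝ)
    (hx : ((At eq s)ᵀ * At eq s) *ᵥ x = (At eq s)ᵀ *ᵥ bt eq) (j : Fin n) :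
    |x j| ≤ 2 ^ (n - 1) := by
  set A := At eq s with hA
  have hcard : (0 : ℝ) < ((Fintype.card (Fin n)).factorial : ℝ) := by
    exact_mod_cast Nat.factorial_pos _
  have h1 := Pool.Agent.TH650.GB.cb Aᵀ A
  have h2 := Pool.Agent.TH650.GB.cb Aᵀ (A.updateCol j (bt eq))
  have htr : ∀ I : Fin n → E ⊕ Fin n, (Aᵀ.submatrix id I).det = (A.submatrix I id).det := by
    intro I
    rw [← Matrix.det_transpose]
    rfl
  have h3 : (Aᵀ * A).det * x j = (Aᵀ * A.updateCol j (bt eq)).det := by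
    rw [cramer_self, hx]
    congr 1
    ext a k
    by_cases hk : k = j
    · rw [hk, Matrix.updateCol_self, Matrix.mul_apply, Matrix.mulVec, dotProduct]
      exact Finset.sum_congr rfl fun r _ => by rw [Matrix.updateCol_self]
    · rw [Matrix.updateCol_ne hk, Matrix.mul_apply, Matrix.mul_apply]
      exact Finset.sum_congr rfl fun r _ => by rw [Matrix.updateCol_ne hk]
  have h4 : ((Fintype.card (Fin n)).factorial : ℝ) * (Aᵀ * A).det =
      ∑ I : Fin n → E ⊕ Fin n, (A.submatrix I id).det ^ 2 := by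
    rw [h1]
    exact Finset.sum_congr rfl fun I _ => by rw [htr, sq]
  have hpos : 0 < ((Fintype.card (Fin n)).factorial : ℝ) * (Aᵀ * A).det :=
    mul_pos hcard (det_pos eq s hs)
  have h6 : |((Fintype.card (Fin n)).factorial : ℝ) * (Aᵀ * A).det * x j| ≤
      2 ^ (n - 1) * (((Fintype.card (Fin n)).factorial : ℝ) * (Aᵀ * A).det) := by
    rw [mul_assoc, h3, h2, h4, Finset.mul_sum]
    refine (Finset.abs_sum_le_sum_abs _ _).trans (Finset.sum_le_sum fun I _ => ?_)
    rw [htr]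
    exact minor_bound eq s hs I j
  rw [abs_mul, abs_of_pos hpos, mul_comm] at h6
  exact le_of_mul_le_mul_right h6 hpos

end reg

/-- The equations of the system. -/
def eqs (S₁ : Finset (Fin n)) (S₂ : Finset (Fin n × Fin n × Fin n)) : S₁ ⊕ S₂ → Eqn n :=
  Sum.elim (fun i => Eqn.one i.1) (fun t => Eqn.add t.1.1 t.1.2.1 t.1.2.2)

theorem cf_eqs (S₁ : Finset (Fin n)) (S₂ : Finset (Fin n × Fin n × Fin n)) (e : S₁ ⊕ S₂) :
    cf (eqs S₁ S₂ e) = sysMatrix S₁ S₂ e := by
  rcases e with i | t <;> rfl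

theorem rh_eqs (S₁ : Finset (Fin n)) (S₂ : Finset (Fin n × Fin n × Fin n)) (e : S₁ ⊕ S₂) :
    rh (eqs S₁ S₂ e) = sysRhs S₁ S₂ e := by
  rcases e with i | t <;> rfl

theorem gram_eq (S₁ : Finset (Fin n)) (S₂ : Finset (Fin n × Fin n × Fin n)) (s : ℝ) :
    (At (eqs S₁ S₂) s)ᵀ * At (eqs S₁ S₂) s =
      (sysMatrix S₁ S₂)ᵀ * sysMatrix S₁ S₂ + s ^ 2 • (1 : Matrix (Fin n) (Fin n) ℝ) := by
  ext i k
  rw [Matrix.mul_apply, Fintype.sum_sum_type, Matrix.add_apply, Matrix.mul_apply]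
  congr 1
  · refine Finset.sum_congr rfl fun e _ => ?_
    show cf (eqs S₁ S₂ e) i * cf (eqs S₁ S₂ e) k = _
    rw [cf_eqs]
    rfl
  · show ∑ l, s • (Pi.single l 1 : Fin n → ℝ) i * s • (Pi.single l 1 : Fin n → ℝ) k = _
    rw [Finset.sum_eq_single i]
    · rw [Matrix.smul_apply, Matrix.one_apply, Pi.single_eq_same, Pi.single_apply]
      by_cases h : i = k
      · rw [if_pos h, if_pos h.symm]
        simp only [smul_eq_mul]
        ring
      · rw [if_neg h, if_neg fun h2 => h h2.symm]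
        simp
    · intro l _ hl
      rw [Pi.single_eq_of_ne (Ne.symm hl), smul_zero, zero_mul]
    · intro h
      exact absurd (Finset.mem_univ i) h

theorem rhs_eq (S₁ : Finset (Fin n)) (S₂ : Finset (Fin n × Fin n × Fin n)) (s : ℝ) :
    (At (eqs S₁ S₂) s)ᵀ *ᵥ bt (eqs S₁ S₂) = (sysMatrix S₁ S₂)ᵀ *ᵥ sysRhs S₁ S₂ := by
  funext i
  rw [Matrix.mulVec, Matrix.mulVec, dotProduct, dotProduct, Fintype.sum_sum_type]
  have h2 : ∑ l : Fin n, (At (eqs S₁ S₂) s)ᵀ i (Sum.inr l) * bt (eqs S₁ S₂) (Sum.inr l) = 0 :=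
    Finset.sum_eq_zero fun l _ => mul_zero _
  rw [h2, add_zero]
  refine Finset.sum_congr rfl fun e _ => ?_
  show cf (eqs S₁ S₂ e) i * rh (eqs S₁ S₂ e) = _
  rw [cf_eqs, rh_eqs]
  rfl

/-- All the coordinates of the pseudoinverse solution `A† b` of a system of equations `x_i = 1` and
`x_i + x_j = x_k` in `n` unknowns lie in `[-2 ^ (n - 1), 2 ^ (n - 1)]`. -/
theorem result (n : ℕ) (S₁ : Finset (Fin n)) (S₂ : Finset (Fin n × Fin n × Fin n))
    (G : Matrix (Fin n) (S₁ ⊕ S₂) ℝ) (hG : IsPseudoinverse (sysMatrix S₁ S₂) G) (j : Fin n) :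
    -2 ^ (n - 1) ≤ (G *ᵥ sysRhs S₁ S₂) j ∧ (G *ᵥ sysRhs S₁ S₂) j ≤ 2 ^ (n - 1) := by
  rw [← abs_le]
  set A := sysMatrix S₁ S₂ with hA
  set b := sysRhs S₁ S₂ with hb
  obtain ⟨h1, h2, h3, h4⟩ := hG
  set x := G *ᵥ b with hx
  set z := G *ᵥ (Gᵀ *ᵥ x) with hz
  -- the normal equation
  have hN : (Aᵀ * A) *ᵥ x = Aᵀ *ᵥ b := by
    have h5 : Aᵀ * A * G = Aᵀ := by
      rw [Matrix.mul_assoc, ← h3, ← Matrix.transpose_mul, h1]
    rw [hx, Matrix.mulVec_mulVec, h5]
  have hR : (Aᵀ * A) *ᵥ z = x := by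
    have h5 : Aᵀ * A * G * Gᵀ * G = G := by
      have h6 : Aᵀ * A * G = Aᵀ := by
        rw [Matrix.mul_assoc, ← h3, ← Matrix.transpose_mul, h1]
      rw [h6, ← Matrix.transpose_mul, h4, h2]
    rw [hz, hx, Matrix.mulVec_mulVec, Matrix.mulVec_mulVec, Matrix.mulVec_mulVec]
    simp only [Matrix.mul_assoc] at h5 ⊢
    rw [h5]
  set Z := Real.sqrt (z ⬝ᵥ z) with hZ
  have hzz : 0 ≤ z ⬝ᵥ z := Finset.sum_nonneg fun i _ => mul_self_nonneg _
  have key : ∀ s : ℝ, 0 < s → s ≤ 1 → |x j| ≤ 2 ^ (n - 1) + s * (|z j| + Z) := by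
    intro s hs hs1
    set M := (At (eqs S₁ S₂) s)ᵀ * At (eqs S₁ S₂) s with hM
    have hMu : IsUnit M.det := isUnit_iff_ne_zero.2 (det_pos (eqs S₁ S₂) s hs.ne').ne'
    set y := M⁻¹ *ᵥ (Aᵀ *ᵥ b) with hy
    have hMy : M *ᵥ y = Aᵀ *ᵥ b := by
      rw [hy, Matrix.mulVec_mulVec, Matrix.mul_nonsing_inv _ hMu, Matrix.one_mulVec]
    have hyj : |y j| ≤ 2 ^ (n - 1) := by
      refine reg_bound (eqs S₁ S₂) s hs.ne' y ?_ j
      rw [← hM, hMy, rhs_eq]
    have hMeq : M = Aᵀ * A + s ^ 2 • (1 : Matrix (Fin n) (Fin n) ℝ) := gram_eq S₁ S₂ s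
    have hMw : ∀ w : Fin n → ℝ, M *ᵥ w = (Aᵀ * A) *ᵥ w + s ^ 2 • w := by
      intro w
      rw [hMeq, Matrix.add_mulVec, Matrix.smul_mulVec, Matrix.one_mulVec]
    set v := y - x + s ^ 2 • z with hv
    have hMv : M *ᵥ v = s ^ 4 • z := by
      rw [hv, Matrix.mulVec_add, Matrix.mulVec_sub, Matrix.mulVec_smul, hMy, hMw x, hMw z, hN, hR]
      ext i
      simp only [Pi.add_apply, Pi.sub_apply, Pi.smul_apply, smul_eq_mul]
      ring
    have hdot : v ⬝ᵥ (M *ᵥ v) = s ^ 4 * (v ⬝ᵥ z) := by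
      rw [hMv, dotProduct_smul, smul_eq_mul]
    have hdot2 : v ⬝ᵥ (M *ᵥ v) = (A *ᵥ v) ⬝ᵥ (A *ᵥ v) + s ^ 2 * (v ⬝ᵥ v) := by
      rw [hMw, dotProduct_add, dotProduct_smul, smul_eq_mul, ← Matrix.mulVec_mulVec,
        Matrix.dotProduct_mulVec, Matrix.vecMul_transpose]
    have hAv : 0 ≤ (A *ᵥ v) ⬝ᵥ (A *ᵥ v) := Finset.sum_nonneg fun i _ => mul_self_nonneg _
    have hvv : 0 ≤ v ⬝ᵥ v := Finset.sum_nonneg fun i _ => mul_self_nonneg _
    have hvz : 2 * (v ⬝ᵥ z) ≤ v ⬝ᵥ v + z ⬝ᵥ z := by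
      have : 0 ≤ (v - z) ⬝ᵥ (v - z) := Finset.sum_nonneg fun i _ => mul_self_nonneg _
      rw [sub_dotProduct, dotProduct_sub, dotProduct_sub, dotProduct_comm z v] at this
      linarith
    have hs2 : 0 < s ^ 2 := by positivity
    have hs21 : s ^ 2 ≤ 1 := by nlinarith
    have h7 : s ^ 2 * (v ⬝ᵥ v) ≤ s ^ 2 * (s ^ 2 * (v ⬝ᵥ z)) := by
      have : s ^ 2 * (s ^ 2 * (v ⬝ᵥ z)) = s ^ 4 * (v ⬝ᵥ z) := by ring
      rw [this, ← hdot, hdot2]
      linarith
    have h8 : v ⬝ᵥ v ≤ s ^ 2 * (v ⬝ᵥ z) := le_of_mul_le_mul_left h7 hs2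
    have h9 : v ⬝ᵥ v ≤ s ^ 2 * (z ⬝ᵥ z) := by nlinarith
    have h10 : |v j| ≤ s * Z := by
      refine abs_le_of_sq_le_sq ?_ (mul_nonneg hs.le (Real.sqrt_nonneg _))
      rw [mul_pow, Real.sq_sqrt hzz]
      refine le_trans ?_ h9
      rw [sq]
      exact Finset.single_le_sum (f := fun i => v i * v i) (fun i _ => mul_self_nonneg _)
        (Finset.mem_univ j)
    have h11 : x j = y j + s ^ 2 * z j - v j := by
      rw [hv]
      simp only [Pi.add_apply, Pi.sub_apply, Pi.smul_apply, smul_eq_mul]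
      ring
    have h12 : |s ^ 2 * z j| ≤ s * |z j| := by
      rw [abs_mul, abs_of_pos hs2]
      exact mul_le_mul_of_nonneg_right (by nlinarith) (abs_nonneg _)
    rw [h11]
    calc |y j + s ^ 2 * z j - v j| ≤ |y j + s ^ 2 * z j| + |v j| := abs_sub _ _
      _ ≤ |y j| + |s ^ 2 * z j| + |v j| := by
          have := abs_add_le (y j) (s ^ 2 * z j)
          linarith
      _ ≤ 2 ^ (n - 1) + s * (|z j| + Z) := by linarith
  refine le_of_forall_pos_le_add fun δ hδ => ?_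
  have hZ0 : 0 ≤ |z j| + Z := add_nonneg (abs_nonneg _) (Real.sqrt_nonneg _)
  have hden : 0 < |z j| + Z + 1 := by linarith
  have hs0 : 0 < min 1 (δ / (|z j| + Z + 1)) := lt_min one_pos (div_pos hδ hden)
  refine (key _ hs0 (min_le_left _ _)).trans (add_le_add_right ?_ _)
  calc min 1 (δ / (|z j| + Z + 1)) * (|z j| + Z) ≤ δ / (|z j| + Z + 1) * (|z j| + Z + 1) := by
        refine mul_le_mul (min_le_right _ _) (by linarith) hZ0 (div_pos hδ hden).le
    _ = δ := div_mul_cancel₀ _ hden.ne'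

end Pool.Agent.Results.MP_b60f31_al.PseudoinverseSmall
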